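import Mathlib
import Pool.Agent.Helper648.FY.Table

set_option autoImplicit false

open Filter Topology

namespace Pool.Agent.Helper648.FY

/-- the `5x+1` map -/
def T (m : ℕ) : ℕ := if m % 2 = 0 then m / 2 else (5 * m + 1) / 2

theorem u_step (r : ℕ) (hr : r < 78125) (h1 : 1 ≤ u r) :
    u r + 1 ≤ u (2 * r % 78125) ∨
    (r % 5 = 3 ∧ ∀ t < 5, 1 ≤ u (((2 * r - 1) / 5 + 15625 * t) % 78125) ∧
      u r ≤ u (((2 * r - 1) / 5 + 15625 * t) % 78125) + 3) := by
  have h := tst_all r hr
  rw [tst, Bool.or_eq_true, Bool.or_eq_true] at h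
  rcases h with (h | h) | h
  · have := Nat.eq_of_beq_eq_true h
    omega
  · left
    exact Nat.le_of_ble_eq_true h
  · right
    simp only [Bool.and_eq_true, tst1] at h
    obtain ⟨h3, ⟨⟨⟨a0, a1⟩, a2⟩, a3⟩, a4⟩ := h
    refine ⟨Nat.eq_of_beq_eq_true h3, ?_⟩
    intro t ht
    interval_cases t
    · exact ⟨by simpa using Nat.le_of_ble_eq_true a0.1, by simpa using Nat.le_of_ble_eq_true a0.2⟩
    · exact ⟨by simpa using Nat.le_of_ble_eq_true a1.1, by simpa using Nat.le_of_ble_eq_true a1.2⟩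
    · exact ⟨by simpa using Nat.le_of_ble_eq_true a2.1, by simpa using Nat.le_of_ble_eq_true a2.2⟩
    · exact ⟨by simpa using Nat.le_of_ble_eq_true a3.1, by simpa using Nat.le_of_ble_eq_true a3.2⟩
    · exact ⟨by simpa using Nat.le_of_ble_eq_true a4.1, by simpa using Nat.le_of_ble_eq_true a4.2⟩

/-- backward paths from `16` with at least a quarter of odd steps -/
theorem path (k : ℕ) : ∃ n h : ℕ, T^[k] n = 16 ∧ n * 5 ^ h ≤ 16 * 2 ^ k ∧ 1 ≤ n ∧
    1 ≤ u (n % 78125) ∧ k + u 16 ≤ 4 * h + u (n % 78125) := by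
  induction k with
  | zero => exact ⟨16, 0, rfl, by norm_num, by norm_num, u_16, by simp⟩
  | succ k ih =>
    obtain ⟨n, h, hT, hle, hn, hu, hk⟩ := ih
    have hr : n % 78125 < 78125 := Nat.mod_lt _ (by norm_num)
    rcases u_step (n % 78125) hr hu with h1 | ⟨h3, h1⟩
    · have h2 : 2 * (n % 78125) % 78125 = (2 * n) % 78125 := by omega
      rw [h2] at h1
      refine ⟨2 * n, h, ?_, ?_, by omega, by omega, by omega⟩
      · rw [Function.iterate_succ_apply]
        have : T (2 * n) = n := by unfold T; split_ifs <;> omega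
        rw [this, hT]
      · calc 2 * n * 5 ^ h = 2 * (n * 5 ^ h) := by ring
          _ ≤ 2 * (16 * 2 ^ k) := Nat.mul_le_mul_left _ hle
          _ = 16 * 2 ^ (k + 1) := by ring
    · have h2 : ((2 * (n % 78125) - 1) / 5 + 15625 * ((2 * (n / 78125)) % 5)) % 78125 =
          ((2 * n - 1) / 5) % 78125 := by omega
      have h4 := h1 ((2 * (n / 78125)) % 5) (Nat.mod_lt _ (by norm_num))
      rw [h2] at h4
      refine ⟨(2 * n - 1) / 5, h + 1, ?_, ?_, by omega, h4.1, by omega⟩
      · rw [Function.iterate_succ_apply]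
        have : T ((2 * n - 1) / 5) = n := by unfold T; split_ifs <;> omega
        rw [this, hT]
      · calc (2 * n - 1) / 5 * 5 ^ (h + 1) = ((2 * n - 1) / 5 * 5) * 5 ^ h := by ring
          _ ≤ (2 * n) * 5 ^ h := Nat.mul_le_mul_right _ (by omega)
          _ = 2 * (n * 5 ^ h) := by ring
          _ ≤ 2 * (16 * 2 ^ k) := Nat.mul_le_mul_left _ hle
          _ = 16 * 2 ^ (k + 1) := by ring

/-- the cycle through `1` -/
theorem cyc (i : ℕ) : T^[i] 1 ∈ ({1, 2, 3, 4, 8} : Finset ℕ) := by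
  induction i with
  | zero => simp
  | succ i ih =>
    rw [Function.iterate_succ_apply']
    generalize T^[i] 1 = y at ih
    simp only [Finset.mem_insert, Finset.mem_singleton] at ih ⊢
    rcases ih with rfl | rfl | rfl | rfl | rfl <;> simp [T]

/-- if `T^k n = 16` then `n` reaches `1` for the first time after exactly `k + 4` steps -/
theorem first_hit (n k : ℕ) (h : T^[k] n = 16) :
    T^[k + 4] n = 1 ∧ ∀ j < k + 4, T^[j] n ≠ 1 := by
  have e1 : T 16 = 8 := rfl
  have e2 : T 8 = 4 := rfl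
  have e3 : T 4 = 2 := rfl
  have e4 : T 2 = 1 := rfl
  have k1 : T^[k + 1] n = 8 := by rw [Function.iterate_succ_apply', h, e1]
  have k2 : T^[k + 2] n = 4 := by rw [Function.iterate_succ_apply', k1, e2]
  have k3 : T^[k + 3] n = 2 := by rw [Function.iterate_succ_apply', k2, e3]
  have k4 : T^[k + 4] n = 1 := by rw [Function.iterate_succ_apply', k3, e4]
  refine ⟨k4, ?_⟩
  intro j hj hj1
  rcases Nat.lt_or_ge k j with hjk | hjk
  · have : j = k + 1 ∨ j = k + 2 ∨ j = k + 3 := by omega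
    rcases this with rfl | rfl | rfl
    · rw [k1] at hj1; omega
    · rw [k2] at hj1; omega
    · rw [k3] at hj1; omega
  · have h1 : T^[k] n = T^[k - j] (T^[j] n) := by
      rw [← Function.iterate_add_apply]
      congr 2
      omega
    rw [hj1, h] at h1
    have h2 := cyc (k - j)
    rw [← h1] at h2
    simp at h2

end Pool.Agent.Helper648.FY
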