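import Mathlib
import Pool.Agent.Helper648.FY.Path

set_option autoImplicit false

open Filter Topology

namespace Pool.Agent.Helper648.FY

theorem log_eq : Real.log (16 / 5) = 4 * (Real.log 2 - Real.log 5 / 4) := by
  rw [Real.log_div (by norm_num) (by norm_num)]
  have : (16 : ℝ) = 2 ^ 4 := by norm_num
  rw [this, Real.log_pow]
  push_cast
  ring

theorem log_pos' : 0 < Real.log (16 / 5) := Real.log_pos (by norm_num)

theorem numeric : (3.43 : ℝ) < 4 / Real.log (16 / 5) := by
  have h1 : Real.log (16 / 5) < 1.166 := by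
    rw [Real.log_lt_iff_lt_exp (by norm_num)]
    have h2 : Real.exp 1.166 = Real.exp 1 * Real.exp 0.166 := by
      rw [← Real.exp_add]; norm_num
    have h3 := Real.quadratic_le_exp_of_nonneg (x := (0.166 : ℝ)) (by norm_num)
    have h4 := Real.exp_one_gt_d9
    rw [h2]
    nlinarith
  rw [lt_div_iff₀ log_pos']
  nlinarith

/-- logarithmic form of the path lemma -/
theorem path_log (k : ℕ) : ∃ n : ℕ, T^[k] n = 16 ∧ 1 ≤ n ∧
    Real.log n ≤ (Real.log 16 + 31 / 4 * Real.log 5) + k * (Real.log 2 - Real.log 5 / 4) := by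
  obtain ⟨n, h, hT, hle, hn, hu, hk⟩ := path k
  refine ⟨n, hT, hn, ?_⟩
  have hn' : (0 : ℝ) < n := by exact_mod_cast hn
  have h1 : (n : ℝ) * 5 ^ h ≤ 16 * 2 ^ k := by exact_mod_cast hle
  have h2 := Real.log_le_log (by positivity) h1
  rw [Real.log_mul hn'.ne' (by positivity), Real.log_mul (by norm_num) (by positivity),
    Real.log_pow, Real.log_pow] at h2
  have h3 : (k : ℝ) ≤ 4 * h + 31 := by
    have := u_lt (n % 78125)
    have h4 : k ≤ 4 * h + 31 := by omega
    exact_mod_cast h4
  have h5 : 0 < Real.log 5 := Real.log_pos (by norm_num)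
  nlinarith

theorem main (ε : ℝ) (hε : 0 < ε) :
    {x : ℕ | 0 < x ∧ ∃ k : ℕ, T^[k] x = 1 ∧ (∀ j < k, T^[j] x ≠ 1) ∧
      (4 / Real.log (16 / 5) - ε) * Real.log x < k}.Infinite := by
  choose f hf1 hf2 hf3 using path_log
  set a := Real.log 2 - Real.log 5 / 4 with ha
  have ha0 : 0 < a := by
    have h1 := log_pos'
    rw [log_eq] at h1
    linarith
  have hl : 4 / Real.log (16 / 5) = 1 / a := by
    rw [log_eq, ← ha]
    field_simp
  set B := Real.log 16 + 31 / 4 * Real.log 5 with hB
  have hB0 : 0 < B := by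
    have h1 : 0 < Real.log 16 := Real.log_pos (by norm_num)
    have h2 : 0 < Real.log 5 := Real.log_pos (by norm_num)
    positivity
  obtain ⟨K, hK⟩ := exists_nat_ge (B / (a ^ 2 * ε))
  refine Set.infinite_of_injective_forall_mem (f := fun i => f (K + i)) ?_ ?_
  · intro i j hij
    have hij' : f (K + i) = f (K + j) := hij
    by_contra hne
    rcases Nat.lt_or_gt_of_ne hne with h | h
    · have h1 := (first_hit _ _ (hf1 (K + i))).1
      rw [hij'] at h1
      exact (first_hit _ _ (hf1 (K + j))).2 (K + i + 4) (by omega) h1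
    · have h1 := (first_hit _ _ (hf1 (K + j))).1
      rw [← hij'] at h1
      exact (first_hit _ _ (hf1 (K + i))).2 (K + j + 4) (by omega) h1
  · intro i
    have hpos : 0 < f (K + i) := hf2 (K + i)
    refine ⟨hpos, K + i + 4, (first_hit _ _ (hf1 (K + i))).1, (first_hit _ _ (hf1 (K + i))).2, ?_⟩
    have h3 := hf3 (K + i)
    have h0 : 0 ≤ Real.log (f (K + i)) := Real.log_natCast_nonneg _
    rw [hl]
    have hKi : B / (a ^ 2 * ε) ≤ ((K + i : ℕ) : ℝ) := by
      push_cast
      have : (0 : ℝ) ≤ i := Nat.cast_nonneg i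
      linarith
    rw [div_le_iff₀ (by positivity)] at hKi
    generalize hx : ((K + i : ℕ) : ℝ) = x at hKi h3
    have hx0 : 0 ≤ x := by rw [← hx]; positivity
    have hcast : ((K + i + 4 : ℕ) : ℝ) = x + 4 := by rw [← hx]; push_cast; ring
    rw [hcast]
    by_cases hneg : 1 / a - ε ≤ 0
    · nlinarith
    · push Not at hneg
      have h4 : (1 / a - ε) * Real.log (f (K + i)) ≤ (1 / a - ε) * (B + x * a) :=
        mul_le_mul_of_nonneg_left h3 hneg.le
      have h5 : (1 / a - ε) * (B + x * a) = x + (B / a - ε * a * x) - ε * B := by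
        field_simp
        ring
      have h6 : B / a ≤ ε * a * x := by
        rw [div_le_iff₀ ha0]
        nlinarith
      have h7 : 0 < ε * B := mul_pos hε hB0
      linarith

end Pool.Agent.Helper648.FY
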